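import Pool.Agent.GrU.Basic

/-!
MODULE Wfa (M). Facts about the Wasserstein distance on a finite metric space.

`W1_tri`: glue couplings `π` of `a`, `b` and `π'` of `b`, `c`:
`∑_y π x y π' y z / b y` (terms with `b y = 0` are `0`); use `KhN.W1_eq`, `KhN.Cpl`, `KhN.cost`, and
approximation of the infimum (`exists_lt_of_csInf_lt`) or attained minima.
`push_*`: linearity, positivity, total mass.
`W1_push`: the coupling `π x z = ∑_ω p ω [T ω x = z] a x`.
`W1_diam`: cancel the common part `min (a x) (b x)` by `KhN.W1_add`; the two rests have mass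
`½ ∑ |a - b|`; any coupling has cost at most `D0` times the mass.
`W1_one_step`: `c = min a b`, `a = c + a'`, `b = c + b'`, `∑ a' + ∑ b' = ∑ |a - b|`.
`W1 a b = W1 a' b' ≤ W1 a' (push a') + W1 (push a') (push b') + W1 (push b') b'` and
`W1 (push a') (push b') = W1 (push a' + push c) (push b' + push c) = W1 (push a) (push b)`.
-/

set_option autoImplicit false

namespace Pool.Agent.GrU

open Finset Pool.Agent.MP_12e089_an Pool.Agent.KhN

variable {Ω M : Type} [Fintype Ω] [Fintype M] [DecidableEq M]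

theorem push_add (p : Ω → ℝ) (T : Ω → M → M) (a b : M → ℝ) :
    push p T (fun x => a x + b x) = fun z => push p T a z + push p T b z := by
  funext z
  unfold push
  rw [← sum_add_distrib]
  refine sum_congr rfl fun ω _ => ?_
  rw [← mul_add, ← sum_add_distrib]
  congr 1
  refine sum_congr rfl fun x _ => ?_
  split_ifs <;> simp

theorem push_smul (p : Ω → ℝ) (T : Ω → M → M) (k : ℝ) (a : M → ℝ) :
    push p T (fun x => k * a x) = fun z => k * push p T a z := by
  funext z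
  unfold push
  rw [mul_sum]
  refine sum_congr rfl fun ω _ => ?_
  rw [mul_left_comm k]
  congr 1
  rw [mul_sum]
  refine sum_congr rfl fun x _ => ?_
  split_ifs <;> simp

theorem push_nonneg {p : Ω → ℝ} (hp : ∀ ω, 0 ≤ p ω) (T : Ω → M → M) {a : M → ℝ}
    (ha : ∀ x, 0 ≤ a x) (z : M) : 0 ≤ push p T a z := by
  unfold push
  refine sum_nonneg fun ω _ => mul_nonneg (hp ω) (sum_nonneg fun x _ => ?_)
  split_ifs
  · exact ha x
  · exact le_refl _

theorem sum_push {p : Ω → ℝ} (hp1 : ∑ ω, p ω = 1) (T : Ω → M → M) (a : M → ℝ) :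
    ∑ z, push p T a z = ∑ x, a x := by
  unfold push
  rw [sum_comm]
  have h1 : ∀ ω, ∑ z, p ω * ∑ x, (if T ω x = z then a x else 0) = p ω * ∑ x, a x := by
    intro ω
    rw [← mul_sum, sum_comm]
    congr 1
    refine sum_congr rfl fun x _ => ?_
    rw [sum_ite_eq, if_pos (mem_univ _)]
  rw [sum_congr rfl fun ω _ => h1 ω, ← sum_mul, hp1, one_mul]

theorem push_l1 {p : Ω → ℝ} (hp : ∀ ω, 0 ≤ p ω) (hp1 : ∑ ω, p ω = 1) (T : Ω → M → M)
    (a b : M → ℝ) : ∑ z, |push p T a z - push p T b z| ≤ ∑ x, |a x - b x| := by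
  rw [← sum_push hp1 T fun x => |a x - b x|]
  refine sum_le_sum fun z _ => ?_
  unfold push
  rw [← sum_sub_distrib]
  refine (abs_sum_le_sum_abs _ _).trans (sum_le_sum fun ω _ => ?_)
  rw [← mul_sub, abs_mul, abs_of_nonneg (hp ω), ← sum_sub_distrib]
  refine mul_le_mul_of_nonneg_left ((abs_sum_le_sum_abs _ _).trans (sum_le_sum fun x _ => ?_))
    (hp ω)
  split_ifs <;> simp

omit [DecidableEq M] in
private theorem wfa_ne {a b : M → ℝ} (ha : ∀ x, 0 ≤ a x) (hb : ∀ x, 0 ≤ b x)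
    (hab : ∑ x, a x = ∑ x, b x) : ∃ π, Cpl a b π := by
  have ha0 : 0 ≤ ∑ x, a x := sum_nonneg fun x _ => ha x
  by_cases h0 : ∑ x, a x = 0
  · have h1 : ∀ x, a x = 0 := fun x => (sum_eq_zero_iff_of_nonneg fun x _ => ha x).1 h0 x
      (mem_univ x)
    have h2 : ∀ x, b x = 0 := fun x => (sum_eq_zero_iff_of_nonneg fun x _ => hb x).1
      (hab.symm.trans h0) x (mem_univ x)
    refine ⟨fun _ _ => 0, fun _ _ => le_refl _, fun x => ?_, fun y => ?_⟩
    · rw [h1 x, sum_const_zero]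
    · rw [h2 y, sum_const_zero]
  · refine ⟨fun x y => a x * b y / ∑ x, a x, fun x y => ?_, fun x => ?_, fun y => ?_⟩
    · exact div_nonneg (mul_nonneg (ha x) (hb y)) ha0
    · rw [← sum_div, ← mul_sum, ← hab]
      field_simp
    · rw [← sum_div, ← sum_mul]
      field_simp

omit [DecidableEq M] in
private theorem wfa_le {ρ : M → M → ℝ} (hρ : IsMet ρ) {a b : M → ℝ} {π : M → M → ℝ}
    (h : Cpl a b π) : W1 ρ a b ≤ cost ρ π := by
  rw [W1_eq]
  exact csInf_le (bdd hρ a b) ⟨π, h, rfl⟩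

omit [DecidableEq M] in
private theorem wfa_glue {ρ : M → M → ℝ} (hρ : IsMet ρ) {a b c : M → ℝ} {π π' : M → M → ℝ}
    (h : Cpl a b π) (h' : Cpl b c π') : ∃ π'', Cpl a c π'' ∧ cost ρ π'' ≤ cost ρ π + cost ρ π' := by
  have hb : ∀ y, 0 ≤ b y := fun y => by
    rw [← h.col y]
    exact sum_nonneg fun x _ => h.nonneg x y
  have z1 : ∀ y, b y = 0 → ∀ x, π x y = 0 := by
    intro y hy x
    have h1 := h.col y
    rw [hy] at h1
    exact (sum_eq_zero_iff_of_nonneg fun x _ => h.nonneg x y).1 h1 x (mem_univ x)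
  have z2 : ∀ y, b y = 0 → ∀ z, π' y z = 0 := by
    intro y hy z
    have h1 := h'.row y
    rw [hy] at h1
    exact (sum_eq_zero_iff_of_nonneg fun z _ => h'.nonneg y z).1 h1 z (mem_univ z)
  have e1 : ∀ x y, ∑ z, π x y * π' y z / b y = π x y := by
    intro x y
    rw [← sum_div, ← mul_sum, h'.row y]
    by_cases hy : b y = 0
    · rw [z1 y hy x]
      simp
    · field_simp
  have e2 : ∀ y z, ∑ x, π x y * π' y z / b y = π' y z := by
    intro y z
    rw [← sum_div, ← sum_mul, h.col y]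
    by_cases hy : b y = 0
    · rw [z2 y hy z]
      simp
    · field_simp
  refine ⟨fun x z => ∑ y, π x y * π' y z / b y, ⟨fun x z => ?_, fun x => ?_, fun z => ?_⟩, ?_⟩
  · exact sum_nonneg fun y _ => div_nonneg (mul_nonneg (h.nonneg x y) (h'.nonneg y z)) (hb y)
  · rw [sum_comm, sum_congr rfl fun y _ => e1 x y, h.row x]
  · rw [sum_comm, sum_congr rfl fun y _ => e2 y z, h'.col z]
  · unfold cost
    have e3 : ∑ x, ∑ y, π x y * ρ x y = ∑ x, ∑ z, ∑ y, π x y * π' y z / b y * ρ x y := by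
      refine sum_congr rfl fun x _ => ?_
      rw [sum_comm]
      refine sum_congr rfl fun y _ => ?_
      rw [← sum_mul, e1]
    have e4 : ∑ x, ∑ z, ∑ y, π x y * π' y z / b y * ρ y z = ∑ y, ∑ z, π' y z * ρ y z := by
      have e5 : ∀ x, ∑ z, ∑ y, π x y * π' y z / b y * ρ y z =
          ∑ y, ∑ z, π x y * π' y z / b y * ρ y z := fun x => sum_comm
      rw [sum_congr rfl fun x _ => e5 x, sum_comm]
      refine sum_congr rfl fun y _ => ?_
      rw [sum_comm]
      refine sum_congr rfl fun z _ => ?_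
      rw [← sum_mul, e2]
    rw [e3, ← e4, ← sum_add_distrib]
    refine sum_le_sum fun x _ => ?_
    rw [← sum_add_distrib]
    refine sum_le_sum fun z _ => ?_
    rw [← sum_add_distrib, sum_mul]
    refine sum_le_sum fun y _ => ?_
    rw [← mul_add]
    exact mul_le_mul_of_nonneg_left (hρ.tri x y z)
      (div_nonneg (mul_nonneg (h.nonneg x y) (h'.nonneg y z)) (hb y))

theorem W1_tri {ρ : M → M → ℝ} (hρ : IsMet ρ) {a b c : M → ℝ} (ha : ∀ x, 0 ≤ a x)
    (hb : ∀ x, 0 ≤ b x) (hc : ∀ x, 0 ≤ c x) (hab : ∑ x, a x = ∑ x, b x)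
    (hbc : ∑ x, b x = ∑ x, c x) : W1 ρ a c ≤ W1 ρ a b + W1 ρ b c := by
  obtain ⟨π0, h0⟩ := wfa_ne ha hb hab
  obtain ⟨π1, h1⟩ := wfa_ne hb hc hbc
  have h2 : W1 ρ a c - W1 ρ b c ≤ W1 ρ a b := by
    rw [W1_eq ρ a b]
    refine le_csInf ⟨_, π0, h0, rfl⟩ ?_
    rintro u ⟨π, hπ, rfl⟩
    have h3 : W1 ρ a c - cost ρ π ≤ W1 ρ b c := by
      rw [W1_eq ρ b c]
      refine le_csInf ⟨_, π1, h1, rfl⟩ ?_
      rintro v ⟨π', hπ', rfl⟩
      obtain ⟨π'', h4, h5⟩ := wfa_glue hρ hπ hπ'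
      have h6 := wfa_le hρ h4
      linarith
    linarith
  linarith

theorem W1_push {ρ : M → M → ℝ} (hρ : IsMet ρ) {p : Ω → ℝ} (hp : ∀ ω, 0 ≤ p ω)
    (hp1 : ∑ ω, p ω = 1) {T : Ω → M → M} {H : ℝ} (hH : ∀ ω x, ρ x (T ω x) ≤ H) {a : M → ℝ}
    (ha : ∀ x, 0 ≤ a x) : W1 ρ a (push p T a) ≤ H * ∑ x, a x := by
  have hc : Cpl a (push p T a) (fun x z => ∑ ω, p ω * if T ω x = z then a x else 0) := by
    refine ⟨fun x z => ?_, fun x => ?_, fun z => ?_⟩
    · refine sum_nonneg fun ω _ => mul_nonneg (hp ω) ?_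
      split_ifs
      · exact ha x
      · exact le_refl _
    · rw [sum_comm]
      have h1 : ∀ ω, ∑ z, p ω * (if T ω x = z then a x else 0) = p ω * a x := by
        intro ω
        rw [← mul_sum, sum_ite_eq, if_pos (mem_univ _)]
      rw [sum_congr rfl fun ω _ => h1 ω, ← sum_mul, hp1, one_mul]
    · rw [sum_comm]
      unfold push
      exact sum_congr rfl fun ω _ => (mul_sum _ _ _).symm
  refine (wfa_le hρ hc).trans ?_
  unfold cost
  rw [mul_sum]
  refine sum_le_sum fun x _ => ?_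
  have h1 : ∀ z, (∑ ω, p ω * if T ω x = z then a x else 0) * ρ x z =
      ∑ ω, p ω * (if T ω x = z then a x * ρ x z else 0) := by
    intro z
    rw [sum_mul]
    refine sum_congr rfl fun ω _ => ?_
    split_ifs
    · ring
    · ring
  rw [sum_congr rfl fun z _ => h1 z, sum_comm]
  have h2 : ∀ ω, ∑ z, p ω * (if T ω x = z then a x * ρ x z else 0) ≤ p ω * (H * a x) := by
    intro ω
    rw [← mul_sum, sum_ite_eq, if_pos (mem_univ _)]
    refine mul_le_mul_of_nonneg_left ?_ (hp ω)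
    rw [mul_comm H]
    exact mul_le_mul_of_nonneg_left (hH ω x) (ha x)
  refine (sum_le_sum fun ω _ => h2 ω).trans (le_of_eq ?_)
  rw [← sum_mul, hp1, one_mul]

private theorem wfa_min {a b : M → ℝ} : ∃ c a' b' : M → ℝ, (∀ x, c x = min (a x) (b x)) ∧
    (∀ x, 0 ≤ a' x) ∧ (∀ x, 0 ≤ b' x) ∧ (a = fun x => a' x + c x) ∧ (b = fun x => b' x + c x) ∧
    (∀ x, |a x - b x| = a' x + b' x) := by
  refine ⟨fun x => min (a x) (b x), fun x => a x - min (a x) (b x),
    fun x => b x - min (a x) (b x), fun x => rfl, fun x => ?_, fun x => ?_, ?_, ?_, fun x => ?_⟩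
  · exact sub_nonneg.2 (min_le_left _ _)
  · exact sub_nonneg.2 (min_le_right _ _)
  · funext x
    ring
  · funext x
    ring
  · dsimp only
    rcases le_total (a x) (b x) with h | h
    · rw [min_eq_left h, abs_of_nonpos (by linarith)]
      ring
    · rw [min_eq_right h, abs_of_nonneg (by linarith)]
      ring

theorem W1_diam {ρ : M → M → ℝ} (hρ : IsMet ρ) {D0 : ℝ} (hD : ∀ x y, ρ x y ≤ D0)
    {a b : M → ℝ} (ha : ∀ x, 0 ≤ a x) (hb : ∀ x, 0 ≤ b x) (hab : ∑ x, a x = ∑ x, b x) :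
    W1 ρ a b ≤ D0 / 2 * ∑ x, |a x - b x| := by
  obtain ⟨c, a', b', hc, ha', hb', ea, eb, e⟩ := wfa_min (a := a) (b := b)
  have hc0 : ∀ x, 0 ≤ c x := fun x => by
    rw [hc x]
    exact le_min (ha x) (hb x)
  have h1 : W1 ρ a b = W1 ρ a' b' := by
    rw [ea, eb]
    exact W1_add hρ ha' hb' hc0
  have h2 : ∑ x, a' x = ∑ x, b' x := by
    rw [ea, eb, sum_add_distrib, sum_add_distrib] at hab
    linarith
  have h3 : ∑ x, |a x - b x| = 2 * ∑ x, a' x := by
    rw [sum_congr rfl fun x _ => e x, sum_add_distrib, ← h2]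
    ring
  obtain ⟨π, hπ⟩ := wfa_ne ha' hb' h2
  rw [h1, h3]
  refine (wfa_le hρ hπ).trans ?_
  have h4 : D0 / 2 * (2 * ∑ x, a' x) = ∑ x, D0 * a' x := by
    rw [← mul_sum]
    ring
  rw [h4]
  unfold cost
  refine sum_le_sum fun x _ => ?_
  rw [← hπ.row x, mul_sum]
  refine sum_le_sum fun y _ => ?_
  rw [mul_comm]
  exact mul_le_mul_of_nonneg_right (hD x y) (hπ.nonneg x y)

theorem W1_one_step {ρ : M → M → ℝ} (hρ : IsMet ρ) {p : Ω → ℝ} (hp : ∀ ω, 0 ≤ p ω)
    (hp1 : ∑ ω, p ω = 1) {T : Ω → M → M} {H : ℝ} (hH : ∀ ω x, ρ x (T ω x) ≤ H) {a b : M → ℝ}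
    (ha : ∀ x, 0 ≤ a x) (hb : ∀ x, 0 ≤ b x) (hab : ∑ x, a x = ∑ x, b x) :
    W1 ρ a b ≤ H * ∑ x, |a x - b x| + W1 ρ (push p T a) (push p T b) := by
  obtain ⟨c, a', b', hc, ha', hb', ea, eb, e⟩ := wfa_min (a := a) (b := b)
  have hc0 : ∀ x, 0 ≤ c x := fun x => by
    rw [hc x]
    exact le_min (ha x) (hb x)
  have h1 : W1 ρ a b = W1 ρ a' b' := by
    rw [ea, eb]
    exact W1_add hρ ha' hb' hc0
  have h2 : ∑ x, a' x = ∑ x, b' x := by
    rw [ea, eb, sum_add_distrib, sum_add_distrib] at hab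
    linarith
  have h3 : ∑ x, |a x - b x| = ∑ x, a' x + ∑ x, b' x := by
    rw [sum_congr rfl fun x _ => e x, sum_add_distrib]
  have h4 : W1 ρ (push p T a) (push p T b) = W1 ρ (push p T a') (push p T b') := by
    rw [ea, eb, push_add, push_add]
    exact W1_add hρ (push_nonneg hp T ha') (push_nonneg hp T hb') (push_nonneg hp T hc0)
  have h5 := W1_push hρ hp hp1 hH ha'
  have h6 := W1_push hρ hp hp1 hH hb'
  rw [W1_symm hρ] at h6
  have h7 := W1_tri hρ ha' (push_nonneg hp T ha') hb' (sum_push hp1 T a').symm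
    ((sum_push hp1 T a').trans h2)
  have h8 := W1_tri hρ (push_nonneg hp T ha') (push_nonneg hp T hb') hb'
    (by rw [sum_push hp1, sum_push hp1, h2]) (sum_push hp1 T b')
  rw [h1, h3, h4, mul_add]
  linarith

end Pool.Agent.GrU
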