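import Pool.Agent.GrU.Ker
import Pool.Agent.GrU.Wfa
import Pool.Agent.MP_12e089_an.LOne

/-!
MODULE Emb (M). The embedding with distortion `16 √d (J + 1)`, `Δ ≤ 2^J`.

Let `p_j` be the kernel with `h = 2^j` (`kernel`), `μ_0 = μ`, `μ_{j+1} = push p_j (sh (2^j)) μ_j`
(linear in `μ`), `H_j = 2 · 2^j √d` (`rho2 x (sh h v x) ≤ √(∑ v_i²) ≤ 2 h √d`), `D0 = √d 2^J`
(`rho2 x y ≤ √d Δ`). By `W1_one_step` for `j < J` and `W1_diam` for `μ_J`:
`W1 μ ν ≤ ∑_{j<J} H_j ∑_z |μ_j z - ν_j z| + D0/2 ∑_z |μ_J z - ν_J z| = l1 (Φ μ) (Φ ν)` with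
`Φ μ = (H_j μ_j z)_{j,z} ⊕ (D0/2 μ_J z)_z`.
For two points `x ≠ y` (`rho2 x y ≥ 1`): `j = 0`: `H_0 · 2 ≤ 4 √d rho2 x y`; `j ≥ 1`:
`(dl x)_j - (dl y)_j = push p_{j-1} (..) ((dl x)_{j-1} - (dl y)_{j-1})` and `(dl x)_{j-1}` is the law of
`T x` for a random composition `T` of clamped shifts (`T` is `1`-Lipschitz for `rho2`), so
`∑_z |(dl x)_j z - (dl y)_j z| ≤ 4 rho2 x y / 2^(j-1)` [induction: for all `j ≥ 1`; or: `push p (sh h)`
commutes with `push q (sh h')` because clamped shifts commute, so the kernel `p_{j-1}` can be applied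
first, then `push_l1`], times `H_j` resp. `D0/2`: at most `16 √d rho2 x y` each. In total
`l1 (Φ (dl x)) (Φ (dl y)) ≤ 16 √d (J + 1) rho2 x y`.
For `S`, `T` of size `s`: `exists_perm_le` gives a bijection, and by linearity
`l1 (Φ (unif S)) (Φ (unif T)) ≤ (1/s) ∑_i l1 (Φ (dl (e i))) (Φ (dl (f (σ i)))) ≤ 16 √d (J+1) W1`.
Compose with `exists_toLOne`; `r = 1`.
-/

set_option autoImplicit false

namespace Pool.Agent.GrU

open Finset Pool.Agent.MP_12e089_an Pool.Agent.KhN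

section abs

variable {Ω M : Type} [Fintype Ω] [Fintype M] [DecidableEq M]

/-- `push` as a linear map. -/
private noncomputable def pushL (p : Ω → ℝ) (T : Ω → M → M) : (M → ℝ) →ₗ[ℝ] (M → ℝ) where
  toFun := push p T
  map_add' := fun a b => push_add p T a b
  map_smul' := fun k a => push_smul p T k a

private theorem push_dl (p : Ω → ℝ) (T : Ω → M → M) (x : M) :
    push p T (dl x) = ∑ ω, p ω • dl (T ω x) := by
  funext z
  rw [Finset.sum_apply]
  unfold push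
  refine sum_congr rfl fun ω _ => ?_
  rw [Pi.smul_apply, smul_eq_mul]
  congr 1
  rw [sum_eq_single x]
  · unfold dl
    by_cases h : T ω x = z
    · rw [if_pos h, if_pos rfl, if_pos h.symm]
    · rw [if_neg h, if_neg (fun h' => h h'.symm)]
  · intro y _ hy
    unfold dl
    rw [if_neg hy]
    split_ifs <;> rfl
  · intro h
    exact absurd (mem_univ _) h

/-- `L` is Lipschitz with the constant `B`. -/
private def Lip (ρ : M → M → ℝ) (L : (M → ℝ) →ₗ[ℝ] (M → ℝ)) (B : ℝ) : Prop :=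
  ∀ x y, ∑ z, |L (dl x) z - L (dl y) z| ≤ B * ρ x y

private theorem lip_push {ρ : M → M → ℝ} {L : (M → ℝ) →ₗ[ℝ] (M → ℝ)} {B : ℝ} (hB : 0 ≤ B)
    (hL : Lip ρ L B) {p : Ω → ℝ} (hp : ∀ ω, 0 ≤ p ω) (hp1 : ∑ ω, p ω = 1) {T : Ω → M → M}
    (hT : ∀ ω x y, ρ (T ω x) (T ω y) ≤ ρ x y) : Lip ρ (L ∘ₗ pushL p T) B := by
  intro x y
  have h1 : ∀ x z, (L ∘ₗ pushL p T) (dl x) z = ∑ ω, p ω * L (dl (T ω x)) z := by
    intro x z
    have h2 : pushL p T (dl x) = ∑ ω, p ω • dl (T ω x) := push_dl p T x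
    rw [LinearMap.comp_apply, h2, map_sum, Finset.sum_apply]
    refine sum_congr rfl fun ω _ => ?_
    rw [map_smul, Pi.smul_apply, smul_eq_mul]
  have h3 : ∀ z, |(L ∘ₗ pushL p T) (dl x) z - (L ∘ₗ pushL p T) (dl y) z| ≤
      ∑ ω, p ω * |L (dl (T ω x)) z - L (dl (T ω y)) z| := by
    intro z
    rw [h1, h1, ← sum_sub_distrib]
    refine (abs_sum_le_sum_abs _ _).trans (le_of_eq ?_)
    refine sum_congr rfl fun ω _ => ?_
    rw [← mul_sub, abs_mul, abs_of_nonneg (hp ω)]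
  calc ∑ z, |(L ∘ₗ pushL p T) (dl x) z - (L ∘ₗ pushL p T) (dl y) z|
      ≤ ∑ z, ∑ ω, p ω * |L (dl (T ω x)) z - L (dl (T ω y)) z| := sum_le_sum fun z _ => h3 z
    _ = ∑ ω, p ω * ∑ z, |L (dl (T ω x)) z - L (dl (T ω y)) z| := by
        rw [sum_comm]
        exact sum_congr rfl fun ω _ => (mul_sum _ _ _).symm
    _ ≤ ∑ ω, p ω * (B * ρ x y) := by
        refine sum_le_sum fun ω _ => mul_le_mul_of_nonneg_left ?_ (hp ω)
        exact (hL _ _).trans (mul_le_mul_of_nonneg_left (hT ω x y) hB)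
    _ = B * ρ x y := by rw [← sum_mul, hp1, one_mul]

private theorem unif_eq {s : ℕ} {S : Finset M} (e : Fin s → M) (he : Function.Injective e)
    (heS : ∀ y, y ∈ S ↔ ∃ i, e i = y) : unif s S = (1 / (s : ℝ)) • ∑ i, dl (e i) := by
  funext y
  rw [Pi.smul_apply, Finset.sum_apply, smul_eq_mul, sum_enum e he heS (fun x => dl x y)]
  unfold unif dl
  rw [sum_ite_eq]
  split_ifs <;> simp

private theorem conv {s : ℕ} {S T : Finset M} (e f : Fin s → M) (he : Function.Injective e)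
    (hf : Function.Injective f) (heS : ∀ y, y ∈ S ↔ ∃ i, e i = y)
    (hfT : ∀ y, y ∈ T ↔ ∃ i, f i = y) (σ : Equiv.Perm (Fin s)) (L : (M → ℝ) →ₗ[ℝ] (M → ℝ)) :
    ∑ z, |L (unif s S) z - L (unif s T) z| ≤
      1 / (s : ℝ) * ∑ i, ∑ z, |L (dl (e i)) z - L (dl (f (σ i))) z| := by
  have hT : unif s T = (1 / (s : ℝ)) • ∑ i, dl (f (σ i)) := by
    rw [unif_eq f hf hfT]
    congr 1
    exact (Equiv.sum_comp σ fun i => dl (f i)).symm
  have h0 : (0 : ℝ) ≤ 1 / (s : ℝ) := by positivity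
  have h1 : ∀ z, |L (unif s S) z - L (unif s T) z| ≤
      1 / (s : ℝ) * ∑ i, |L (dl (e i)) z - L (dl (f (σ i))) z| := by
    intro z
    rw [unif_eq e he heS, hT, map_smul, map_smul, Pi.smul_apply, Pi.smul_apply, smul_eq_mul,
      smul_eq_mul, ← mul_sub, abs_mul, abs_of_nonneg h0]
    refine mul_le_mul_of_nonneg_left ?_ h0
    rw [map_sum, map_sum, Finset.sum_apply, Finset.sum_apply, ← sum_sub_distrib]
    exact abs_sum_le_sum_abs _ _
  refine (sum_le_sum fun z _ => h1 z).trans (le_of_eq ?_)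
  rw [← mul_sum, sum_comm]

private theorem exists_enum' {s : ℕ} {S : Finset M} (hS : S.card = s) :
    ∃ e : Fin s → M, Function.Injective e ∧ ∀ y, y ∈ S ↔ ∃ i, e i = y := by
  refine ⟨fun i => ((S.equivFinOfCardEq hS).symm i : M), ?_, ?_⟩
  · intro i j h
    exact (S.equivFinOfCardEq hS).symm.injective (Subtype.ext h)
  · intro y
    constructor
    · intro hy
      exact ⟨S.equivFinOfCardEq hS ⟨y, hy⟩, by simp⟩
    · rintro ⟨i, rfl⟩
      exact ((S.equivFinOfCardEq hS).symm i).2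

end abs

section grid

variable {Δ d : ℕ}

private theorem sh_lip (h : ℕ) (v : Fin d → Fin (2 * h + 1)) (x y : Grid Δ d) :
    rho2 (sh h v x) (sh h v y) ≤ rho2 x y := by
  unfold rho2
  refine Real.sqrt_le_sqrt (sum_le_sum fun i _ => ?_)
  have h1 : ∀ a b v D : ℕ, ((min (a + v) D : ℕ) - (min (b + v) D : ℕ) : ℤ).natAbs ≤
      ((a : ℤ) - b).natAbs := by
    intro a b v D
    omega
  have h2 := h1 (x i) (y i) (v i) (Δ - 1)
  have h3 : ((min ((x i : ℕ) + (v i : ℕ)) (Δ - 1) : ℕ) - (min ((y i : ℕ) + (v i : ℕ)) (Δ - 1) : ℕ)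
      : ℤ) ^ 2 ≤ (((x i : ℕ) : ℤ) - ((y i : ℕ) : ℤ)) ^ 2 := Int.natAbs_le_iff_sq_le.1 h2
  exact_mod_cast h3

private theorem sh_near (h : ℕ) (v : Fin d → Fin (2 * h + 1)) (x : Grid Δ d) :
    rho2 x (sh h v x) ≤ 2 * h * Real.sqrt d := by
  have h0 : (0 : ℝ) ≤ 2 * h := by positivity
  have h1 : (2 * h * Real.sqrt d : ℝ) = Real.sqrt (∑ _i : Fin d, (2 * h : ℝ) ^ 2) := by
    rw [sum_const, card_univ, Fintype.card_fin, nsmul_eq_mul, Real.sqrt_mul (Nat.cast_nonneg _),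
      Real.sqrt_sq h0, mul_comm]
  rw [h1]
  unfold rho2
  refine Real.sqrt_le_sqrt (sum_le_sum fun i _ => ?_)
  have hx := (x i).2
  have hv := (v i).2
  have h2 : (((x i : ℕ) : ℤ) - (min ((x i : ℕ) + (v i : ℕ)) (Δ - 1) : ℕ)).natAbs ≤
      ((2 * h : ℕ) : ℤ).natAbs := by
    omega
  have h3 : (((x i : ℕ) : ℤ) - (min ((x i : ℕ) + (v i : ℕ)) (Δ - 1) : ℕ)) ^ 2 ≤
      ((2 * h : ℕ) : ℤ) ^ 2 := Int.natAbs_le_iff_sq_le.1 h2
  exact_mod_cast h3

private theorem rho2_diam (x y : Grid Δ d) : rho2 x y ≤ Δ * Real.sqrt d := by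
  have h0 : (0 : ℝ) ≤ Δ := by positivity
  have h1 : (Δ * Real.sqrt d : ℝ) = Real.sqrt (∑ _i : Fin d, (Δ : ℝ) ^ 2) := by
    rw [sum_const, card_univ, Fintype.card_fin, nsmul_eq_mul, Real.sqrt_mul (Nat.cast_nonneg _),
      Real.sqrt_sq h0, mul_comm]
  rw [h1]
  unfold rho2
  refine Real.sqrt_le_sqrt (sum_le_sum fun i _ => ?_)
  have hx := (x i).2
  have hy := (y i).2
  have h2 : (((x i : ℕ) : ℤ) - ((y i : ℕ) : ℤ)).natAbs ≤ ((Δ : ℕ) : ℤ).natAbs := by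
    omega
  have h3 : (((x i : ℕ) : ℤ) - ((y i : ℕ) : ℤ)) ^ 2 ≤ ((Δ : ℕ) : ℤ) ^ 2 :=
    Int.natAbs_le_iff_sq_le.1 h2
  exact_mod_cast h3

private theorem rho2_ge_one {x y : Grid Δ d} (h : x ≠ y) : 1 ≤ rho2 x y := by
  obtain ⟨i, hi⟩ := Function.ne_iff.1 h
  unfold rho2
  rw [← Real.sqrt_one]
  refine Real.sqrt_le_sqrt ?_
  refine le_trans ?_ (single_le_sum (f := fun i => (((x i : ℕ) : ℝ) - ((y i : ℕ) : ℝ)) ^ 2)
    (fun i _ => sq_nonneg _) (mem_univ i))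
  have h1 : (x i : ℕ) ≠ (y i : ℕ) := fun h' => hi (Fin.ext h')
  have h2 : (1 : ℤ).natAbs ≤ (((x i : ℕ) : ℤ) - ((y i : ℕ) : ℤ)).natAbs := by
    omega
  have h3 : (1 : ℤ) ^ 2 ≤ (((x i : ℕ) : ℤ) - ((y i : ℕ) : ℤ)) ^ 2 := Int.natAbs_le_iff_sq_le.1 h2
  have h4 : (1 : ℝ) ^ 2 ≤ (((x i : ℕ) : ℝ) - ((y i : ℕ) : ℝ)) ^ 2 := by exact_mod_cast h3
  linarith

/-- The iterated push. -/
private noncomputable def mjL (p : ∀ j : ℕ, (Fin d → Fin (2 * 2 ^ j + 1)) → ℝ) :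
    ℕ → ((Grid Δ d → ℝ) →ₗ[ℝ] (Grid Δ d → ℝ))
  | 0 => LinearMap.id
  | j + 1 => pushL (p j) (sh (2 ^ j)) ∘ₗ mjL p j

variable {p : ∀ j : ℕ, (Fin d → Fin (2 * 2 ^ j + 1)) → ℝ}

private theorem mjL_succ (j : ℕ) (μ : Grid Δ d → ℝ) :
    mjL p (j + 1) μ = push (p j) (sh (2 ^ j)) (mjL p j μ) := rfl

private theorem mjL_nonneg (hp : ∀ j v, 0 ≤ p j v) (j : ℕ) {μ : Grid Δ d → ℝ}
    (hμ : ∀ x, 0 ≤ μ x) : ∀ x, 0 ≤ mjL p j μ x := by
  induction j with
  | zero => exact hμ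
  | succ j ih =>
    rw [mjL_succ]
    exact push_nonneg (hp j) _ ih

private theorem sum_mjL (hp1 : ∀ j, ∑ v, p j v = 1) (j : ℕ) (μ : Grid Δ d → ℝ) :
    ∑ x, mjL p j μ x = ∑ x, μ x := by
  induction j with
  | zero => rfl
  | succ j ih =>
    rw [mjL_succ, sum_push (hp1 j), ih]

private theorem lower_it (hp : ∀ j v, 0 ≤ p j v) (hp1 : ∀ j, ∑ v, p j v = 1)
    {μ ν : Grid Δ d → ℝ} (hμ : ∀ x, 0 ≤ μ x) (hν : ∀ x, 0 ≤ ν x) (h : ∑ x, μ x = ∑ x, ν x)
    (J : ℕ) :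
    W1 rho2 μ ν ≤ ∑ j ∈ range J, 2 * 2 ^ j * Real.sqrt d *
      ∑ z, |mjL p j μ z - mjL p j ν z| + W1 rho2 (mjL p J μ) (mjL p J ν) := by
  induction J with
  | zero =>
    rw [range_zero, sum_empty, zero_add]
    exact le_refl _
  | succ J ih =>
    have h1 := W1_one_step (isMet_rho2 (Δ := Δ) (d := d)) (hp J) (hp1 J) (T := sh (2 ^ J))
      (H := 2 * 2 ^ J * Real.sqrt d) (fun ω x => by
        have := sh_near (2 ^ J) ω x
        push_cast at this
        exact this) (mjL_nonneg hp J hμ) (mjL_nonneg hp J hν)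
      (by rw [sum_mjL hp1, sum_mjL hp1, h])
    rw [sum_range_succ, mjL_succ, mjL_succ]
    linarith

private theorem lip_mj (hp : ∀ j v, 0 ≤ p j v) (hp1 : ∀ j, ∑ v, p j v = 1) {B : ℝ} (hB : 0 ≤ B)
    (j : ℕ) : ∀ L : (Grid Δ d → ℝ) →ₗ[ℝ] (Grid Δ d → ℝ), Lip rho2 L B →
      Lip rho2 (L ∘ₗ mjL p j) B := by
  induction j with
  | zero => exact fun L hL => hL
  | succ j ih =>
    intro L hL
    exact ih _ (lip_push hB hL (hp j) (hp1 j) fun v x y => sh_lip _ v x y)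

private theorem lip_succ (hp : ∀ j v, 0 ≤ p j v) (hp1 : ∀ j, ∑ v, p j v = 1)
    (hk : ∀ (j : ℕ) (x y : Grid Δ d),
      ∑ z, |push (p j) (sh (2 ^ j)) (dl x) z - push (p j) (sh (2 ^ j)) (dl y) z| ≤
        4 * rho2 x y / ((2 ^ j : ℕ) : ℝ)) (j : ℕ) :
    Lip rho2 (mjL (Δ := Δ) p (j + 1)) (4 / 2 ^ j) := by
  refine lip_mj hp hp1 (by positivity) j (pushL (p j) (sh (2 ^ j))) fun x y => ?_
  refine (hk j x y).trans (le_of_eq ?_)
  push_cast
  ring

private theorem lip_zero : Lip rho2 (mjL (Δ := Δ) p 0) 2 := by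
  intro x y
  by_cases h : x = y
  · subst h
    have h1 : rho2 x x = 0 := isMet_rho2.self x
    rw [h1]
    simp
  · have h1 := rho2_ge_one h
    have h2 : ∑ z, |dl x z - dl y z| ≤ 2 := by
      have h3 : ∀ z, |dl x z - dl y z| ≤ dl x z + dl y z := by
        intro z
        have h4 : 0 ≤ dl x z := by
          unfold dl
          split_ifs <;> norm_num
        have h5 : 0 ≤ dl y z := by
          unfold dl
          split_ifs <;> norm_num
        rw [abs_le]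
        constructor <;> linarith
      refine (sum_le_sum fun z _ => h3 z).trans ?_
      rw [sum_add_distrib, sum_dl, sum_dl]
      norm_num
    have h6 : ∑ z, |mjL p 0 (dl x) z - mjL p 0 (dl y) z| = ∑ z, |dl x z - dl y z| := rfl
    rw [h6]
    linarith

/-- The weights. -/
private noncomputable def wt' (d J j : ℕ) : ℝ :=
  if j < J then 2 * 2 ^ j * Real.sqrt d else 2 ^ J / 2 * Real.sqrt d

private theorem wt'_nonneg (d J j : ℕ) : 0 ≤ wt' d J j := by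
  unfold wt'
  split_ifs <;> positivity

private theorem term_le (hp : ∀ j v, 0 ≤ p j v) (hp1 : ∀ j, ∑ v, p j v = 1)
    (hk : ∀ (j : ℕ) (x y : Grid Δ d),
      ∑ z, |push (p j) (sh (2 ^ j)) (dl x) z - push (p j) (sh (2 ^ j)) (dl y) z| ≤
        4 * rho2 x y / ((2 ^ j : ℕ) : ℝ)) {J j : ℕ} (hJ : 1 ≤ J) (hj : j < J + 1)
    (x y : Grid Δ d) :
    wt' d J j * ∑ z, |mjL p j (dl x) z - mjL p j (dl y) z| ≤ 16 * Real.sqrt d * rho2 x y := by
  have hr : 0 ≤ rho2 x y := isMet_rho2.nonneg x y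
  have hd : 0 ≤ Real.sqrt d := Real.sqrt_nonneg _
  rcases Nat.eq_zero_or_pos j with rfl | hj0
  · have h1 := lip_zero (p := p) x y
    have h2 : wt' d J 0 = 2 * Real.sqrt d := by
      unfold wt'
      rw [if_pos (by omega)]
      simp
    rw [h2]
    refine (mul_le_mul_of_nonneg_left h1 (by positivity)).trans ?_
    nlinarith [mul_nonneg hd hr]
  · obtain ⟨i, rfl⟩ : ∃ i, j = i + 1 := ⟨j - 1, by omega⟩
    have h1 := lip_succ hp hp1 hk i x y
    refine (mul_le_mul_of_nonneg_left h1 (wt'_nonneg _ _ _)).trans ?_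
    have h3 : (0 : ℝ) < 2 ^ i := by positivity
    by_cases h : i + 1 < J
    · have h2 : wt' d J (i + 1) = 2 * 2 ^ (i + 1) * Real.sqrt d := if_pos h
      rw [h2]
      refine le_of_eq ?_
      rw [pow_succ]
      field_simp
      ring
    · have h4 : J = i + 1 := by omega
      have h2 : wt' d J (i + 1) = 2 ^ (i + 1) / 2 * Real.sqrt d := by
        unfold wt'
        rw [if_neg h, h4]
      rw [h2]
      have h5 : 2 ^ (i + 1) / 2 * Real.sqrt d * (4 / 2 ^ i * rho2 x y) =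
          4 * Real.sqrt d * rho2 x y := by
        rw [pow_succ]
        field_simp
      rw [h5]
      nlinarith [mul_nonneg hd hr]

/-- The embedding. -/
private noncomputable def Phi (p : ∀ j : ℕ, (Fin d → Fin (2 * 2 ^ j + 1)) → ℝ) (J : ℕ)
    (μ : Grid Δ d → ℝ) : Fin (J + 1) × Grid Δ d → ℝ :=
  fun a => wt' d J a.1 * mjL p a.1 μ a.2

private theorem l1_Phi (J : ℕ) (μ ν : Grid Δ d → ℝ) :
    l1 (Phi p J μ) (Phi p J ν) =
      ∑ j ∈ range (J + 1), wt' d J j * ∑ z, |mjL p j μ z - mjL p j ν z| := by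
  unfold l1 Phi
  rw [Fintype.sum_prod_type, ← Fin.sum_univ_eq_sum_range
    (fun j => wt' d J j * ∑ z, |mjL p j μ z - mjL p j ν z|)]
  refine sum_congr rfl fun j _ => ?_
  rw [mul_sum]
  refine sum_congr rfl fun z _ => ?_
  dsimp only
  rw [← mul_sub, abs_mul, abs_of_nonneg (wt'_nonneg _ _ _)]

end grid

theorem embed2 {Δ d s J : ℕ} (hΔ : 1 ≤ Δ) (hJ : Δ ≤ 2 ^ J) (hJ1 : 1 ≤ J) (hd : 1 ≤ d)
    (hs : 1 ≤ s) :
    EmbedsL1 (fun μ ν : Y Δ d s => W1 rho2 μ.1 ν.1) (16 * Real.sqrt d * (J + 1)) := by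
  have hs0 : 0 < s := hs
  choose p hp hp1 hk using fun j : ℕ => kernel (2 ^ j) d Nat.one_le_two_pow
  have hk' := fun j : ℕ => hk j Δ
  obtain ⟨E, hE⟩ := exists_toLOne (Fin (J + 1) × Grid Δ d)
  have hd1 : 1 ≤ Real.sqrt d := by
    rw [← Real.sqrt_one]
    exact Real.sqrt_le_sqrt (by exact_mod_cast hd)
  have hJ0 : (0 : ℝ) ≤ J := Nat.cast_nonneg _
  refine ⟨by nlinarith, fun μ => E (Phi p J μ.1), 1, one_pos, ?_⟩
  rintro ⟨μ, S, hS, rfl⟩ ⟨ν, T, hT, rfl⟩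
  dsimp only
  rw [one_mul, mul_one, hE]
  constructor
  · have h0 : ∀ (S : Finset (Grid Δ d)) (x : Grid Δ d), 0 ≤ unif s S x := by
      intro S x
      unfold unif
      split_ifs <;> positivity
    have h1 := lower_it hp hp1 (h0 S) (h0 T) (by rw [sum_unif hs0 hS, sum_unif hs0 hT]) J
    have hD : ∀ x y : Grid Δ d, rho2 x y ≤ 2 ^ J * Real.sqrt d := by
      intro x y
      refine (rho2_diam x y).trans (mul_le_mul_of_nonneg_right ?_ (Real.sqrt_nonneg _))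
      exact_mod_cast hJ
    have h2 := W1_diam (isMet_rho2 (Δ := Δ) (d := d)) hD (mjL_nonneg hp J (h0 S))
      (mjL_nonneg hp J (h0 T))
      (by rw [sum_mjL hp1, sum_mjL hp1, sum_unif hs0 hS, sum_unif hs0 hT])
    rw [l1_Phi, sum_range_succ]
    have h3 : ∑ j ∈ range J, wt' d J j * ∑ z, |mjL p j (unif s S) z - mjL p j (unif s T) z| =
        ∑ j ∈ range J, 2 * 2 ^ j * Real.sqrt d *
          ∑ z, |mjL p j (unif s S) z - mjL p j (unif s T) z| := by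
      refine sum_congr rfl fun j hj => ?_
      have h4 : wt' d J j = 2 * 2 ^ j * Real.sqrt d := if_pos (mem_range.1 hj)
      rw [h4]
    have h5 : wt' d J J = 2 ^ J / 2 * Real.sqrt d := if_neg (lt_irrefl _)
    rw [h3, h5]
    have h6 : 2 ^ J * Real.sqrt d / 2 *
        ∑ z, |mjL p J (unif s S) z - mjL p J (unif s T) z| =
        2 ^ J / 2 * Real.sqrt d *
        ∑ z, |mjL p J (unif s S) z - mjL p J (unif s T) z| := by ring
    rw [h6] at h2
    linarith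
  · obtain ⟨e, he, heS⟩ := exists_enum' hS
    obtain ⟨f, hf, hfT⟩ := exists_enum' hT
    obtain ⟨σ, hσ⟩ := exists_perm_le hs0 rho2 (isMet_rho2 (Δ := Δ) (d := d)).nonneg e f he hf
      heS hfT
    rw [l1_Phi]
    have h1 : ∀ j ∈ range (J + 1),
        wt' d J j * ∑ z, |mjL p j (unif s S) z - mjL p j (unif s T) z| ≤
        16 * Real.sqrt d * (1 / s * ∑ i, rho2 (e i) (f (σ i))) := by
      intro j hj
      have h2 := conv e f he hf heS hfT σ (mjL p j)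
      refine (mul_le_mul_of_nonneg_left h2 (wt'_nonneg _ _ _)).trans ?_
      have h3 : ∀ i, wt' d J j * ∑ z, |mjL p j (dl (e i)) z - mjL p j (dl (f (σ i))) z| ≤
          16 * Real.sqrt d * rho2 (e i) (f (σ i)) := fun i =>
        term_le hp hp1 hk' hJ1 (mem_range.1 hj) _ _
      have h4 : wt' d J j * (1 / (s : ℝ) *
          ∑ i, ∑ z, |mjL p j (dl (e i)) z - mjL p j (dl (f (σ i))) z|) =
          1 / (s : ℝ) * ∑ i, wt' d J j * ∑ z, |mjL p j (dl (e i)) z -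
            mjL p j (dl (f (σ i))) z| := by
        rw [← mul_sum]
        ring
      have h5 : 16 * Real.sqrt d * (1 / s * ∑ i, rho2 (e i) (f (σ i))) =
          1 / (s : ℝ) * ∑ i, 16 * Real.sqrt d * rho2 (e i) (f (σ i)) := by
        rw [← mul_sum]
        ring
      rw [h4, h5]
      exact mul_le_mul_of_nonneg_left (sum_le_sum fun i _ => h3 i) (by positivity)
    refine (sum_le_sum h1).trans ?_
    rw [sum_const, card_range, nsmul_eq_mul]
    push_cast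
    have h6 : 0 ≤ 16 * Real.sqrt d * ((J : ℝ) + 1) := by positivity
    refine le_trans (le_of_eq ?_) (mul_le_mul_of_nonneg_left hσ h6)
    ring

end Pool.Agent.GrU
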