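import Pool.Agent.KhN.UpFin

/-!
The linear embedding of `W_1` of the grid with the `ℓ_2` metric: definitions.

`push p T μ` is the mean of the image measures of `μ` under the maps `T ω` with the weights `p ω`;
`sh h v` is the shift by `v` followed by clamping to the grid.
-/

set_option autoImplicit false

namespace Pool.Agent.GrU

open Finset Pool.Agent.MP_12e089_an

/-- The shift by `v`, clamped to the grid. -/
def sh {Δ d : ℕ} (h : ℕ) (v : Fin d → Fin (2 * h + 1)) (x : Grid Δ d) : Grid Δ d :=
  fun i => ⟨min ((x i : ℕ) + (v i : ℕ)) (Δ - 1), by have := (x i).2; omega⟩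

/-- The mean of the image measures. -/
noncomputable def push {Ω M : Type} [Fintype Ω] [Fintype M] [DecidableEq M] (p : Ω → ℝ)
    (T : Ω → M → M) (μ : M → ℝ) : M → ℝ :=
  fun z => ∑ ω, p ω * ∑ x, if T ω x = z then μ x else 0

end Pool.Agent.GrU
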