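import Pool.Agent.GrU.Basic

/-!
MODULE Ker (M). The product kernel at scale `h`.

Let `a t = min t (2h - t)` for `0 ≤ t ≤ 2h` (and `0` outside), `s2 = ∑_t (a t)^2 = (2 h^3 + h)/3`, and
`p v = ∏_i (a (v i))^2 / s2`. Then `p ≥ 0`, `∑ p = 1`.
Claim for `x y : Fin d → ℤ`: `∑_{u ∈ ℤ^d} |p (u - x) - p (u - y)| ≤ 2 √(∑_i γ² (x_i - y_i)²)`,
`γ² = 2h / s2 = 6 / (2h² + 1) ≤ 3 / h²`: put `A_x u = ∏_i a (u_i - x_i) / √s2`, an `ℓ_2` unit vector;
`|A_x² - A_y²| = |A_x - A_y| (A_x + A_y)`, Cauchy-Schwarz gives `≤ ‖A_x - A_y‖ ‖A_x + A_y‖ ≤ 2 ‖A_x - A_y‖`,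
`‖A_x - A_y‖² = 2 (1 - ∏_i θ_i) ≤ 2 ∑_i (1 - θ_i) = ∑_i H_i²`, where `θ_i ∈ [0,1]` is the overlap
`∑_t a (t - x_i) a (t - y_i) / s2` and `H_i² = ∑_t (a (t - x_i) - a (t - y_i))² / s2 ≤ (x_i - y_i)² γ²`
(`‖a - τ_m a‖ ≤ |m| ‖a - τ_1 a‖`, `∑_t (a t - a (t-1))² = 2h`).
`push p (sh h) (dl x)` is the image of the law `p (· - x)` on `ℤ^d` under clamping (`u ↦ min u (Δ-1)`
coordinatewise), and an image does not increase the `ℓ_1` distance. Finally `2 √3 ≤ 4`.
(All sums over `ℤ` are over a finite window, e.g. `Finset.Icc (-N) N`, or use `Finsupp`/functions on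
`Fin (Δ + 2h)`: for grid points `x`, `y` everything lives in `{0, …, Δ + 2h - 1}^d`.)
-/

set_option autoImplicit false

namespace Pool.Agent.GrU

open Finset Pool.Agent.MP_12e089_an Pool.Agent.KhN

/-- The tent. -/
private def te (h : ℕ) (t : ℤ) : ℝ := ((max 0 (min t (2 * h - t)) : ℤ) : ℝ)

private theorem te_nonneg (h : ℕ) (t : ℤ) : 0 ≤ te h t := by
  unfold te
  exact_mod_cast le_max_left _ _

private theorem te_out {h : ℕ} {t : ℤ} (ht : t ≤ 0 ∨ 2 * (h : ℤ) ≤ t) : te h t = 0 := by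
  unfold te
  have h1 : max 0 (min t (2 * (h : ℤ) - t)) = 0 := by omega
  rw [h1]
  exact Int.cast_zero

private theorem te_step (h : ℕ) (t : ℤ) :
    (te h t - te h (t - 1)) ^ 2 ≤ if 1 ≤ t ∧ t ≤ 2 * (h : ℤ) then 1 else 0 := by
  split_ifs with ht
  · unfold te
    have h1 : (max 0 (min t (2 * (h : ℤ) - t)) -
        max 0 (min (t - 1) (2 * (h : ℤ) - (t - 1)))).natAbs ≤ (1 : ℤ).natAbs := by omega
    have h2 := Int.natAbs_le_iff_sq_le.1 h1
    rw [one_pow] at h2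
    exact_mod_cast h2
  · rw [te_out (h := h) (t := t) (by omega), te_out (h := h) (t := t - 1) (by omega)]
    norm_num

private theorem sum_sq_range (n : ℕ) :
    (6 : ℝ) * ∑ t ∈ range n, (t : ℝ) ^ 2 = ((n : ℝ) - 1) * n * (2 * n - 1) := by
  induction n with
  | zero => simp
  | succ n ih =>
    rw [sum_range_succ, mul_add, ih]
    push_cast
    ring

/-- The square sum of the tent. -/
private noncomputable def S2 (h : ℕ) : ℝ := ∑ t : Fin (2 * h + 1), (te h ((t : ℕ) : ℤ)) ^ 2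

private theorem S2_ge (h : ℕ) : (2 : ℝ) * h ^ 3 / 3 ≤ S2 h := by
  unfold S2
  rw [Fin.sum_univ_eq_sum_range (fun t : ℕ => (te h (t : ℤ)) ^ 2) (2 * h + 1),
    show 2 * h + 1 = h + (h + 1) by ring, sum_range_add]
  have h1 : ∑ t ∈ range h, (te h (t : ℤ)) ^ 2 = ∑ t ∈ range h, (t : ℝ) ^ 2 := by
    refine sum_congr rfl fun t ht => ?_
    have h2 := mem_range.1 ht
    have h3 : max 0 (min (t : ℤ) (2 * (h : ℤ) - t)) = t := by omega
    unfold te
    rw [h3]
    norm_cast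
  have h4 : ∑ t ∈ range (h + 1), (te h ((h + t : ℕ) : ℤ)) ^ 2 =
      ∑ t ∈ range (h + 1), (t : ℝ) ^ 2 := by
    rw [← sum_range_reflect (fun t : ℕ => (t : ℝ) ^ 2) (h + 1)]
    refine sum_congr rfl fun t ht => ?_
    have h2 := mem_range.1 ht
    have h3 : max 0 (min ((h + t : ℕ) : ℤ) (2 * (h : ℤ) - ((h + t : ℕ) : ℤ))) =
        ((h + 1 - 1 - t : ℕ) : ℤ) := by omega
    unfold te
    rw [h3]
    norm_cast
  rw [h1, h4]
  have h5 := sum_sq_range h
  have h6 := sum_sq_range (h + 1)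
  push_cast at h6
  have h7 : (0 : ℝ) ≤ h := Nat.cast_nonneg _
  nlinarith

private theorem sum_te_step (h N : ℕ) (w : ℤ) :
    ∑ u : Fin N, (te h (((u : ℕ) : ℤ) - w) - te h (((u : ℕ) : ℤ) - w - 1)) ^ 2 ≤ 2 * h := by
  refine (sum_le_sum fun u _ => te_step h _).trans ?_
  rw [← sum_filter, sum_const, nsmul_eq_mul, mul_one]
  have h1 : (univ.filter fun u : Fin N => 1 ≤ ((u : ℕ) : ℤ) - w ∧
      ((u : ℕ) : ℤ) - w ≤ 2 * (h : ℤ)).card ≤ (Icc (w + 1) (w + 2 * h)).card := by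
    refine card_le_card_of_injOn (fun u : Fin N => ((u : ℕ) : ℤ)) ?_ ?_
    · intro u hu
      have h2 := (mem_filter.1 (mem_coe.1 hu)).2
      rw [mem_coe, mem_Icc]
      constructor <;> linarith [h2.1, h2.2]
    · intro u _ v _ huv
      dsimp only at huv
      exact Fin.ext (by exact_mod_cast huv)
  rw [Int.card_Icc] at h1
  have h2 : (w + 2 * (h : ℤ) + 1 - (w + 1)).toNat = 2 * h := by omega
  rw [h2] at h1
  exact_mod_cast h1

private theorem tele (f : ℤ → ℝ) (w : ℤ) (m : ℕ) :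
    f w - f (w - m) = ∑ k ∈ range m, (f (w - k) - f (w - k - 1)) := by
  induction m with
  | zero => simp
  | succ m ih =>
    rw [sum_range_succ, ← ih]
    push_cast
    rw [show w - ((m : ℤ) + 1) = w - m - 1 by ring]
    ring

private theorem sum_te_le (h N : ℕ) (x : ℤ) (m : ℕ) :
    ∑ u : Fin N, (te h (((u : ℕ) : ℤ) - x) - te h (((u : ℕ) : ℤ) - (x + m))) ^ 2 ≤
      2 * h * (m : ℝ) ^ 2 := by
  have h1 : ∀ u : Fin N, (te h (((u : ℕ) : ℤ) - x) - te h (((u : ℕ) : ℤ) - (x + m))) ^ 2 ≤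
      m * ∑ k ∈ range m, (te h (((u : ℕ) : ℤ) - (x + k)) -
        te h (((u : ℕ) : ℤ) - (x + k) - 1)) ^ 2 := by
    intro u
    have h2 := tele (te h) (((u : ℕ) : ℤ) - x) m
    rw [sub_add_eq_sub_sub, h2]
    have h3 := sq_sum_le_card_mul_sum_sq (s := range m)
      (f := fun k : ℕ => te h (((u : ℕ) : ℤ) - x - k) - te h (((u : ℕ) : ℤ) - x - k - 1))
    rw [card_range] at h3
    simp only [sub_add_eq_sub_sub]
    exact h3
  refine (sum_le_sum fun u _ => h1 u).trans ?_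
  rw [← mul_sum, sum_comm]
  have h4 : ∑ k ∈ range m, ∑ u : Fin N, (te h (((u : ℕ) : ℤ) - (x + k)) -
        te h (((u : ℕ) : ℤ) - (x + k) - 1)) ^ 2 ≤ m * (2 * h) := by
    refine (sum_le_sum fun k _ => sum_te_step h N _).trans ?_
    rw [sum_const, card_range, nsmul_eq_mul]
  have h5 : (0 : ℝ) ≤ m := Nat.cast_nonneg _
  nlinarith [mul_le_mul_of_nonneg_left h4 h5]

private theorem sum_te_le' (h N : ℕ) (x y : ℕ) :
    ∑ u : Fin N, (te h (((u : ℕ) : ℤ) - x) - te h (((u : ℕ) : ℤ) - y)) ^ 2 ≤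
      2 * h * ((x : ℝ) - y) ^ 2 := by
  rcases le_total x y with hxy | hxy
  · obtain ⟨m, rfl⟩ := Nat.exists_eq_add_of_le hxy
    have h1 := sum_te_le h N x m
    push_cast
    refine h1.trans (le_of_eq ?_)
    ring
  · obtain ⟨m, rfl⟩ := Nat.exists_eq_add_of_le hxy
    have h1 := sum_te_le h N y m
    push_cast
    refine le_trans (le_of_eq ?_) (h1.trans (le_of_eq ?_))
    · refine sum_congr rfl fun u _ => ?_
      ring
    · ring

private theorem one_sub_prod {d : ℕ} (θ : Fin d → ℝ) (h0 : ∀ i, 0 ≤ θ i) (h1 : ∀ i, θ i ≤ 1) :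
    1 - ∏ i, θ i ≤ ∑ i, (1 - θ i) := by
  have key : ∀ T : Finset (Fin d), 0 ≤ ∏ i ∈ T, θ i ∧ ∏ i ∈ T, θ i ≤ 1 ∧
      1 - ∏ i ∈ T, θ i ≤ ∑ i ∈ T, (1 - θ i) := by
    intro T
    induction T using Finset.induction_on with
    | empty => simp
    | insert a T ha ih =>
      rw [prod_insert ha, sum_insert ha]
      obtain ⟨i1, i2, i3⟩ := ih
      have h2 := h0 a
      have h3 := h1 a
      refine ⟨mul_nonneg h2 i1, ?_, ?_⟩
      · nlinarith
      · nlinarith
  exact (key univ).2.2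

private theorem sum_prod_pi {d N : ℕ} (f : Fin d → Fin N → ℝ) :
    ∑ u : Fin d → Fin N, ∏ i, f i (u i) = ∏ i, ∑ t, f i t := by
  rw [prod_univ_sum, Fintype.piFinset_univ]

private theorem hell {d N : ℕ} (g g' : Fin d → Fin N → ℝ) (hg : ∀ i t, 0 ≤ g i t)
    (hg' : ∀ i t, 0 ≤ g' i t) (h1 : ∀ i, ∑ t, g i t ^ 2 = 1) (h1' : ∀ i, ∑ t, g' i t ^ 2 = 1) :
    ∑ u : Fin d → Fin N, |∏ i, g i (u i) ^ 2 - ∏ i, g' i (u i) ^ 2| ≤
      2 * Real.sqrt (∑ i, ∑ t, (g i t - g' i t) ^ 2) := by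
  have e0 : ∀ u : Fin d → Fin N, |∏ i, g i (u i) ^ 2 - ∏ i, g' i (u i) ^ 2| =
      |∏ i, g i (u i) - ∏ i, g' i (u i)| * |∏ i, g i (u i) + ∏ i, g' i (u i)| := by
    intro u
    rw [← abs_mul, prod_pow, prod_pow]
    congr 1
    ring
  rw [sum_congr rfl fun u _ => e0 u]
  have e1 := Real.sum_mul_le_sqrt_mul_sqrt (univ : Finset (Fin d → Fin N))
    (fun u => |∏ i, g i (u i) - ∏ i, g' i (u i)|) (fun u => |∏ i, g i (u i) + ∏ i, g' i (u i)|)
  refine e1.trans ?_
  have a1 : ∑ u : Fin d → Fin N, (∏ i, g i (u i)) ^ 2 = 1 := by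
    simp only [← prod_pow]
    rw [sum_prod_pi (fun i t => g i t ^ 2), prod_congr rfl fun i _ => h1 i, prod_const_one]
  have a2 : ∑ u : Fin d → Fin N, (∏ i, g' i (u i)) ^ 2 = 1 := by
    simp only [← prod_pow]
    rw [sum_prod_pi (fun i t => g' i t ^ 2), prod_congr rfl fun i _ => h1' i, prod_const_one]
  have a3 : ∑ u : Fin d → Fin N, (∏ i, g i (u i)) * (∏ i, g' i (u i)) =
      ∏ i, ∑ t, g i t * g' i t := by
    simp only [← prod_mul_distrib]
    exact sum_prod_pi (fun i t => g i t * g' i t)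
  have b0 : ∀ i, ∑ t, (g i t - g' i t) ^ 2 = 2 * (1 - ∑ t, g i t * g' i t) := by
    intro i
    have b1 : ∀ t, (g i t - g' i t) ^ 2 = g i t ^ 2 + g' i t ^ 2 - 2 * (g i t * g' i t) := by
      intro t
      ring
    rw [sum_congr rfl fun t _ => b1 t, sum_sub_distrib, sum_add_distrib, h1, h1', ← mul_sum]
    ring
  have b2 : ∀ i, ∑ t, g i t * g' i t ≤ 1 := by
    intro i
    have b3 := b0 i
    have b4 : 0 ≤ ∑ t, (g i t - g' i t) ^ 2 := sum_nonneg fun t _ => sq_nonneg _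
    linarith
  have b5 : ∀ i, 0 ≤ ∑ t, g i t * g' i t := fun i =>
    sum_nonneg fun t _ => mul_nonneg (hg i t) (hg' i t)
  have b6 := one_sub_prod _ b5 b2
  have b7 : ∏ i, ∑ t, g i t * g' i t ≤ 1 := prod_le_one (fun i _ => b5 i) fun i _ => b2 i
  have c1 : ∑ u : Fin d → Fin N, |∏ i, g i (u i) - ∏ i, g' i (u i)| ^ 2 ≤
      ∑ i, ∑ t, (g i t - g' i t) ^ 2 := by
    have c2 : ∀ u : Fin d → Fin N, |∏ i, g i (u i) - ∏ i, g' i (u i)| ^ 2 =
        (∏ i, g i (u i)) ^ 2 + (∏ i, g' i (u i)) ^ 2 -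
          2 * ((∏ i, g i (u i)) * (∏ i, g' i (u i))) := by
      intro u
      rw [sq_abs]
      ring
    rw [sum_congr rfl fun u _ => c2 u, sum_sub_distrib, sum_add_distrib, a1, a2, ← mul_sum, a3,
      sum_congr rfl fun i _ => b0 i, ← mul_sum]
    linarith
  have c3 : ∑ u : Fin d → Fin N, |∏ i, g i (u i) + ∏ i, g' i (u i)| ^ 2 ≤ 2 ^ 2 := by
    have c2 : ∀ u : Fin d → Fin N, |∏ i, g i (u i) + ∏ i, g' i (u i)| ^ 2 =
        (∏ i, g i (u i)) ^ 2 + (∏ i, g' i (u i)) ^ 2 +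
          2 * ((∏ i, g i (u i)) * (∏ i, g' i (u i))) := by
      intro u
      rw [sq_abs]
      ring
    rw [sum_congr rfl fun u _ => c2 u, sum_add_distrib, sum_add_distrib, a1, a2, ← mul_sum, a3]
    linarith
  have c4 := Real.sqrt_le_sqrt c1
  have c5 := Real.sqrt_le_sqrt c3
  rw [Real.sqrt_sq (by norm_num)] at c5
  rw [mul_comm (2 : ℝ)]
  exact mul_le_mul c4 c5 (Real.sqrt_nonneg _) (Real.sqrt_nonneg _)

/-- The translated normalised tent. -/
private noncomputable def gx (h N : ℕ) (x : ℕ) (t : Fin N) : ℝ :=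
  te h (((t : ℕ) : ℤ) - x) / Real.sqrt (S2 h)

private theorem S2_pos {h : ℕ} (hh : 1 ≤ h) : 0 < S2 h := by
  have h1 : (0 : ℝ) < h := by exact_mod_cast hh
  have h2 : (0 : ℝ) < 2 * h ^ 3 / 3 := by positivity
  exact lt_of_lt_of_le h2 (S2_ge h)

private theorem gx_sq {h : ℕ} (hh : 1 ≤ h) (N x : ℕ) (t : Fin N) :
    gx h N x t ^ 2 = te h (((t : ℕ) : ℤ) - x) ^ 2 / S2 h := by
  unfold gx
  rw [div_pow, Real.sq_sqrt (S2_pos hh).le]

private theorem sum_gx {h : ℕ} (hh : 1 ≤ h) {N x : ℕ} (hx : x + 2 * h < N) :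
    ∑ t, gx h N x t ^ 2 = 1 := by
  simp only [gx_sq hh]
  rw [← sum_div]
  have h1 : S2 h = ∑ t : Fin N, te h (((t : ℕ) : ℤ) - x) ^ 2 := by
    unfold S2
    refine Fintype.sum_of_injective
      (fun v : Fin (2 * h + 1) => (⟨x + v, by have := v.2; omega⟩ : Fin N)) ?_ _ _ ?_ ?_
    · intro v w hvw
      have h2 := congrArg Fin.val hvw
      exact Fin.ext (by dsimp only at h2; omega)
    · intro t ht
      have h3 : (t : ℕ) < x ∨ x + 2 * h < t := by
        by_contra hc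
        rw [not_or, not_lt, not_lt] at hc
        refine ht ⟨⟨t - x, by omega⟩, Fin.ext ?_⟩
        dsimp only
        omega
      rw [te_out (by omega)]
      norm_num
    · intro v
      dsimp only
      push_cast
      rw [add_sub_cancel_left]
  rw [← h1]
  exact div_self (S2_pos hh).ne'

private theorem sum_gx_sub {h : ℕ} (hh : 1 ≤ h) (N x y : ℕ) :
    ∑ t, (gx h N x t - gx h N y t) ^ 2 ≤ (2 / h) ^ 2 * ((x : ℝ) - y) ^ 2 := by
  have h0 : (0 : ℝ) < h := by exact_mod_cast hh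
  have h1 : ∀ t, (gx h N x t - gx h N y t) ^ 2 =
      (te h (((t : ℕ) : ℤ) - x) - te h (((t : ℕ) : ℤ) - y)) ^ 2 / S2 h := by
    intro t
    unfold gx
    rw [← sub_div, div_pow, Real.sq_sqrt (S2_pos hh).le]
  rw [sum_congr rfl fun t _ => h1 t, ← sum_div, div_le_iff₀ (S2_pos hh)]
  refine (sum_te_le' h N x y).trans ?_
  have h2 := S2_ge h
  have h3 : (2 * h : ℝ) ≤ (2 / h) ^ 2 * S2 h := by
    have h4 : (2 / h : ℝ) ^ 2 * (2 * h ^ 3 / 3) ≤ (2 / h) ^ 2 * S2 h :=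
      mul_le_mul_of_nonneg_left h2 (by positivity)
    refine le_trans ?_ h4
    have h5 : (2 / h : ℝ) ^ 2 * (2 * h ^ 3 / 3) = 8 / 3 * h := by
      field_simp
      ring
    rw [h5]
    linarith
  nlinarith [mul_le_mul_of_nonneg_right h3 (sq_nonneg ((x : ℝ) - y))]

theorem kernel (h d : ℕ) (hh : 1 ≤ h) : ∃ p : (Fin d → Fin (2 * h + 1)) → ℝ,
    (∀ v, 0 ≤ p v) ∧ ∑ v, p v = 1 ∧
    ∀ (Δ : ℕ) (x y : Grid Δ d),
      ∑ z, |push p (sh h) (dl x) z - push p (sh h) (dl y) z| ≤ 4 * rho2 x y / h := by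
  have h0 : (0 : ℝ) < h := by exact_mod_cast hh
  have hS := S2_pos hh
  refine ⟨fun v => ∏ i, te h ((v i : ℕ) : ℤ) ^ 2 / S2 h, fun v => ?_, ?_, fun Δ x y => ?_⟩
  · exact prod_nonneg fun i _ => div_nonneg (sq_nonneg _) hS.le
  · rw [sum_prod_pi (fun _ t => te h ((t : ℕ) : ℤ) ^ 2 / S2 h)]
    refine prod_eq_one fun i _ => ?_
    rw [← sum_div]
    exact div_self hS.ne'
  · have hpush : ∀ x : Grid Δ d, ∀ z : Grid Δ d,
        push (fun v : Fin d → Fin (2 * h + 1) => ∏ i, te h ((v i : ℕ) : ℤ) ^ 2 / S2 h) (sh h)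
          (dl x) z = ∑ u : Fin d → Fin (Δ + 2 * h),
          if (∀ i, min (u i : ℕ) (Δ - 1) = (z i : ℕ)) then
            ∏ i, gx h (Δ + 2 * h) (x i) (u i) ^ 2 else 0 := by
      intro x z
      have h1 : push (fun v : Fin d → Fin (2 * h + 1) => ∏ i, te h ((v i : ℕ) : ℤ) ^ 2 / S2 h)
          (sh h) (dl x) z = ∑ v : Fin d → Fin (2 * h + 1),
          if sh h v x = z then ∏ i, te h ((v i : ℕ) : ℤ) ^ 2 / S2 h else 0 := by
        unfold push
        refine sum_congr rfl fun v _ => ?_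
        have h2 : (∑ x', if sh h v x' = z then dl x x' else 0) =
            if sh h v x = z then 1 else 0 := by
          rw [sum_eq_single x]
          · unfold dl
            rw [if_pos rfl]
          · intro x' _ hx'
            unfold dl
            rw [if_neg hx']
            split_ifs <;> rfl
          · intro h'
            exact absurd (mem_univ _) h'
        rw [h2]
        split_ifs <;> simp
      rw [h1]
      refine Fintype.sum_of_injective (fun (v : Fin d → Fin (2 * h + 1)) (i : Fin d) =>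
        (⟨(x i : ℕ) + v i, by have := (v i).2; have := (x i).2; omega⟩ : Fin (Δ + 2 * h)))
        ?_ _ _ ?_ ?_
      · intro v w hvw
        funext i
        have h2 := congrArg Fin.val (congrFun hvw i)
        exact Fin.ext (by dsimp only at h2; omega)
      · intro u hu
        split_ifs with hc
        · have h3 : ∃ i, (u i : ℕ) < x i ∨ (x i : ℕ) + 2 * h < u i := by
            by_contra hc'
            refine hu ⟨fun i => ⟨(u i : ℕ) - x i, ?_⟩, ?_⟩
            · have h4 : ¬ ((u i : ℕ) < x i ∨ (x i : ℕ) + 2 * h < u i) := fun h' => hc' ⟨i, h'⟩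
              omega
            · funext i
              have h4 : ¬ ((u i : ℕ) < x i ∨ (x i : ℕ) + 2 * h < u i) := fun h' => hc' ⟨i, h'⟩
              refine Fin.ext ?_
              dsimp only
              omega
          obtain ⟨i, hi⟩ := h3
          refine prod_eq_zero (mem_univ i) ?_
          rw [gx_sq hh, te_out (by omega)]
          simp
        · rfl
      · intro v
        have h3 : (sh h v x = z) ↔ ∀ i, min ((x i : ℕ) + (v i : ℕ)) (Δ - 1) = (z i : ℕ) := by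
          constructor
          · intro h4 i
            rw [← h4]
            rfl
          · intro h4
            funext i
            exact Fin.ext (h4 i)
        have h5 : ∏ i, te h ((v i : ℕ) : ℤ) ^ 2 / S2 h = ∏ i, gx h (Δ + 2 * h) (x i)
            (⟨(x i : ℕ) + v i, by have := (v i).2; have := (x i).2; omega⟩ :
              Fin (Δ + 2 * h)) ^ 2 := by
          refine prod_congr rfl fun i _ => ?_
          rw [gx_sq hh]
          push_cast
          rw [add_sub_cancel_left]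
        rw [h5]
        exact if_congr h3 rfl rfl
    have hx : ∀ (x : Grid Δ d) (i : Fin d), ∑ t, gx h (Δ + 2 * h) (x i) t ^ 2 = 1 := by
      intro x i
      refine sum_gx hh ?_
      have := (x i).2
      omega
    have hg0 : ∀ (x : Grid Δ d) (i : Fin d) (t : Fin (Δ + 2 * h)),
        0 ≤ gx h (Δ + 2 * h) (x i) t := fun x i t =>
      div_nonneg (te_nonneg _ _) (Real.sqrt_nonneg _)
    have h1 := hell (fun i => gx h (Δ + 2 * h) (x i)) (fun i => gx h (Δ + 2 * h) (y i))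
      (hg0 x) (hg0 y) (hx x) (hx y)
    have h2 : ∑ z, |push (fun v : Fin d → Fin (2 * h + 1) =>
          ∏ i, te h ((v i : ℕ) : ℤ) ^ 2 / S2 h) (sh h) (dl x) z -
        push (fun v : Fin d → Fin (2 * h + 1) =>
          ∏ i, te h ((v i : ℕ) : ℤ) ^ 2 / S2 h) (sh h) (dl y) z| ≤
        ∑ u : Fin d → Fin (Δ + 2 * h), |∏ i, gx h (Δ + 2 * h) (x i) (u i) ^ 2 -
          ∏ i, gx h (Δ + 2 * h) (y i) (u i) ^ 2| := by
      have h3 : ∀ z : Grid Δ d, |push (fun v : Fin d → Fin (2 * h + 1) =>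
          ∏ i, te h ((v i : ℕ) : ℤ) ^ 2 / S2 h) (sh h) (dl x) z -
          push (fun v : Fin d → Fin (2 * h + 1) =>
          ∏ i, te h ((v i : ℕ) : ℤ) ^ 2 / S2 h) (sh h) (dl y) z| ≤
          ∑ u : Fin d → Fin (Δ + 2 * h),
            if (∀ i, min (u i : ℕ) (Δ - 1) = (z i : ℕ)) then
              |∏ i, gx h (Δ + 2 * h) (x i) (u i) ^ 2 -
                ∏ i, gx h (Δ + 2 * h) (y i) (u i) ^ 2| else 0 := by
        intro z
        rw [hpush, hpush, ← sum_sub_distrib]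
        refine (abs_sum_le_sum_abs _ _).trans (sum_le_sum fun u _ => ?_)
        split_ifs
        · exact le_refl _
        · simp
      refine (sum_le_sum fun z _ => h3 z).trans ?_
      rw [sum_comm]
      refine sum_le_sum fun u _ => ?_
      rw [← sum_filter, sum_const, nsmul_eq_mul]
      have h4 : (univ.filter fun z : Grid Δ d =>
          ∀ i, min (u i : ℕ) (Δ - 1) = (z i : ℕ)).card ≤ 1 := by
        rw [card_le_one]
        intro z hz z' hz'
        funext i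
        exact Fin.ext (((mem_filter.1 hz).2 i).symm.trans ((mem_filter.1 hz').2 i))
      have h5 : ((univ.filter fun z : Grid Δ d =>
          ∀ i, min (u i : ℕ) (Δ - 1) = (z i : ℕ)).card : ℝ) ≤ 1 := by exact_mod_cast h4
      exact mul_le_of_le_one_left (abs_nonneg _) h5
    refine h2.trans (h1.trans ?_)
    have h6 : ∑ i, ∑ t, (gx h (Δ + 2 * h) (x i) t - gx h (Δ + 2 * h) (y i) t) ^ 2 ≤
        (2 / h) ^ 2 * ∑ i, (((x i : ℕ) : ℝ) - ((y i : ℕ) : ℝ)) ^ 2 := by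
      rw [mul_sum]
      exact sum_le_sum fun i _ => sum_gx_sub hh _ _ _
    have h7 : Real.sqrt (∑ i, ∑ t, (gx h (Δ + 2 * h) (x i) t - gx h (Δ + 2 * h) (y i) t) ^ 2) ≤
        2 / h * rho2 x y := by
      refine (Real.sqrt_le_sqrt h6).trans (le_of_eq ?_)
      unfold rho2
      rw [Real.sqrt_mul (sq_nonneg _), Real.sqrt_sq (by positivity)]
    calc 2 * Real.sqrt (∑ i, ∑ t, (gx h (Δ + 2 * h) (x i) t - gx h (Δ + 2 * h) (y i) t) ^ 2)
        ≤ 2 * (2 / h * rho2 x y) := mul_le_mul_of_nonneg_left h7 (by norm_num)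
      _ = 4 * rho2 x y / h := by
        field_simp
        ring

end Pool.Agent.GrU
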